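import Mathlib

namespace Pool.Agent.Results.MP_530eb6_co.InfinitelyOften

/-- The independent domination number `i(G)`: the smallest cardinality of a maximal
independent set of `G`. -/
noncomputable def indepDomNum {n : ℕ} (G : SimpleGraph (Fin n)) : ℕ :=
  sInf {k : ℕ | ∃ S : Set (Fin n), Maximal G.IsIndepSet S ∧ S.ncard = k}

/-- The smallest cardinality of a maximal clique of `G` (auxiliary; equal to `i(Gᶜ)`). -/
noncomputable def minMaxCliqueNum {n : ℕ} (G : SimpleGraph (Fin n)) : ℕ :=
  sInf {k : ℕ | ∃ S : Set (Fin n), Maximal G.IsClique S ∧ S.ncard = k}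

/-- `f(n)`: the maximum of `i(G) * i(Gᶜ)` over all graphs `G` on `n` vertices
(it really is the maximum, see `f_isGreatest`). -/
noncomputable def f (n : ℕ) : ℕ :=
  sSup {k : ℕ | ∃ G : SimpleGraph (Fin n), indepDomNum G * indepDomNum Gᶜ = k}

/-- A split graph on `Fin n`: the vertices below `p` form a clique, the others are independent,
and `v < p ≤ x` are adjacent exactly when `R v x`. -/
def splitGraph (n p : ℕ) (R : ℕ → ℕ → Prop) : SimpleGraph (Fin n) where
  Adj u v := u ≠ v ∧ ((u.val < p ∧ v.val < p) ∨ (u.val < p ∧ p ≤ v.val ∧ R u.val v.val) ∨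
    (v.val < p ∧ p ≤ u.val ∧ R v.val u.val))
  symm := by
    constructor
    rintro u v ⟨h1, h2⟩
    refine ⟨h1.symm, ?_⟩
    tauto
  loopless := ⟨fun u h => h.1 rfl⟩

theorem exists_maximal_isClique {n : ℕ} (G : SimpleGraph (Fin n)) :
    ∃ S : Set (Fin n), Maximal G.IsClique S := by
  exact Set.Finite.exists_maximal (s := {S : Set (Fin n) | G.IsClique S}) (Set.toFinite _)
    ⟨∅, by simp⟩

theorem exists_maximal_isIndepSet {n : ℕ} (G : SimpleGraph (Fin n)) :
    ∃ S : Set (Fin n), Maximal G.IsIndepSet S := by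
  exact Set.Finite.exists_maximal (s := {S : Set (Fin n) | G.IsIndepSet S}) (Set.toFinite _)
    ⟨∅, by simp [SimpleGraph.IsIndepSet]⟩

theorem le_minMaxCliqueNum {n : ℕ} (G : SimpleGraph (Fin n)) (b : ℕ)
    (h : ∀ S : Set (Fin n), Maximal G.IsClique S → b ≤ S.ncard) : b ≤ minMaxCliqueNum G := by
  obtain ⟨S, hS⟩ := exists_maximal_isClique G
  refine le_csInf ⟨_, S, hS, rfl⟩ ?_
  rintro k ⟨T, hT, rfl⟩
  exact h T hT

theorem le_indepDomNum {n : ℕ} (G : SimpleGraph (Fin n)) (b : ℕ)
    (h : ∀ S : Set (Fin n), Maximal G.IsIndepSet S → b ≤ S.ncard) : b ≤ indepDomNum G := by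
  obtain ⟨S, hS⟩ := exists_maximal_isIndepSet G
  refine le_csInf ⟨_, S, hS, rfl⟩ ?_
  rintro k ⟨T, hT, rfl⟩
  exact h T hT

/-- Every maximal clique of the split graph has at least `m + 1` vertices. -/
theorem clique_bound (n p m : ℕ) (R : ℕ → ℕ → Prop) (hp : m + 1 ≤ p) (hpn : p ≤ n)
    (h : ∀ x : Fin n, p ≤ x.val → m ≤ {v : Fin n | v.val < p ∧ R v.val x.val}.ncard) :
    m + 1 ≤ minMaxCliqueNum (splitGraph n p R) := by
  apply le_minMaxCliqueNum
  intro S hS
  by_cases hx : ∃ x ∈ S, p ≤ x.val
  · obtain ⟨x, hxS, hxp⟩ := hx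
    have hsub : S ⊆ insert x {v : Fin n | v.val < p ∧ R v.val x.val} := by
      intro v hv
      by_cases hvx : v = x
      · exact Or.inl hvx
      · right
        have := hS.prop hv hxS hvx
        obtain ⟨_, h1 | h1 | h1⟩ := this
        · omega
        · exact ⟨h1.1, h1.2.2⟩
        · omega
    have hcl : (splitGraph n p R).IsClique (insert x {v : Fin n | v.val < p ∧ R v.val x.val}) := by
      intro a ha b hb hab
      refine ⟨hab, ?_⟩
      rcases ha with rfl | ha <;> rcases hb with rfl | hb
      · exact absurd rfl hab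
      · exact Or.inr (Or.inr ⟨hb.1, hxp, hb.2⟩)
      · exact Or.inr (Or.inl ⟨ha.1, hxp, ha.2⟩)
      · exact Or.inl ⟨ha.1, hb.1⟩
    have heq := hS.eq_of_subset hcl hsub
    rw [heq, Set.ncard_insert_of_notMem (by simp; omega) (Set.toFinite _)]
    have := h x hxp
    omega
  · push Not at hx
    have hcl : (splitGraph n p R).IsClique {v : Fin n | v.val < p} := by
      intro a ha b hb hab
      exact ⟨hab, Or.inl ⟨ha, hb⟩⟩
    have heq := hS.eq_of_subset hcl (fun x hxS => hx x hxS)
    rw [heq]
    have : {v : Fin n | v.val < p}.ncard = p := by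
      have : {v : Fin n | v.val < p} = ((Finset.univ.filter (fun v : Fin n => v.val < p)) : Set (Fin n)) := by
        ext; simp
      rw [this, Set.ncard_coe_finset, Fin.card_filter_val_lt]
      omega
    omega

/-- Every maximal independent set of the split graph has at least `ℓ + 1` vertices. -/
theorem indep_bound (n p ℓ : ℕ) (R : ℕ → ℕ → Prop) (hp : p + (ℓ + 1) ≤ n)
    (h : ∀ v : Fin n, v.val < p → ℓ ≤ {x : Fin n | p ≤ x.val ∧ ¬ R v.val x.val}.ncard) :
    ℓ + 1 ≤ indepDomNum (splitGraph n p R) := by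
  apply le_indepDomNum
  intro S hS
  by_cases hx : ∃ v ∈ S, v.val < p
  · obtain ⟨v, hvS, hvp⟩ := hx
    have hsub : S ⊆ insert v {x : Fin n | p ≤ x.val ∧ ¬ R v.val x.val} := by
      intro x hxS
      by_cases hvx : x = v
      · exact Or.inl hvx
      · right
        have := hS.prop hvS hxS (Ne.symm hvx)
        have hpx : p ≤ x.val := by
          by_contra hcon
          exact this ⟨Ne.symm hvx, Or.inl ⟨hvp, by omega⟩⟩
        exact ⟨hpx, fun hR => this ⟨Ne.symm hvx, Or.inr (Or.inl ⟨hvp, hpx, hR⟩)⟩⟩
    have hcl : (splitGraph n p R).IsIndepSet (insert v {x : Fin n | p ≤ x.val ∧ ¬ R v.val x.val}) := by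
      intro a ha b hb hab
      rintro ⟨_, h1⟩
      rcases ha with rfl | ha <;> rcases hb with rfl | hb
      · exact absurd rfl hab
      · rcases h1 with h1 | h1 | h1
        · have := hb.1; omega
        · exact hb.2 h1.2.2
        · have := hb.1; omega
      · rcases h1 with h1 | h1 | h1
        · have := ha.1; omega
        · have := ha.1; omega
        · exact ha.2 h1.2.2
      · have := ha.1
        have := hb.1
        omega
    have heq := hS.eq_of_subset hcl hsub
    rw [heq, Set.ncard_insert_of_notMem (by simp; omega) (Set.toFinite _)]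
    have := h v hvp
    omega
  · push Not at hx
    have hcl : (splitGraph n p R).IsIndepSet {x : Fin n | p ≤ x.val} := by
      intro a ha b hb hab
      rintro ⟨_, h1⟩
      have ha' : p ≤ a.val := ha
      have hb' : p ≤ b.val := hb
      omega
    have heq := hS.eq_of_subset hcl (fun x hxS => hx x hxS)
    rw [heq]
    have : {v : Fin n | p ≤ v.val}.ncard = n - p := by
      have : {v : Fin n | p ≤ v.val} = ((Finset.univ.filter (fun v : Fin n => v.val < p))ᶜ : Set (Fin n)) := by
        ext; simp
      rw [this, Set.ncard_compl, Set.ncard_coe_finset, Fin.card_filter_val_lt]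
      simp
      omega
    omega

/-- The construction: whenever `(ℓ + t) m ≤ p t` there is a graph of order `p + (ℓ + t)` with
`i ≥ ℓ + 1` and `μ ≥ m + 1`. -/
theorem exists_graph (ℓ m t p : ℕ) (hm : 0 < m) (ht : 0 < t) (hℓ : 0 < ℓ)
    (hpt : (ℓ + t) * m ≤ p * t) :
    ∃ G : SimpleGraph (Fin (p + (ℓ + t))), ℓ + 1 ≤ indepDomNum G ∧ m + 1 ≤ minMaxCliqueNum G := by
  have hmp : m + 1 ≤ p := by
    by_contra hcon
    have h1 : p ≤ m := by omega
    have h2 : p * t ≤ m * t := Nat.mul_le_mul_right t h1
    have h3 : 0 < ℓ * m := Nat.mul_pos hℓ hm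
    nlinarith
  have hp0 : 0 < p := by omega
  refine ⟨splitGraph (p + (ℓ + t)) p (fun v x => ∃ j, j / m = x - p ∧ j % p = v), ?_, ?_⟩
  · apply indep_bound
    · omega
    · intro v hv
      -- the complement within the independent part has at most `t` vertices
      set A : Set (Fin (p + (ℓ + t))) :=
        {x | p ≤ x.val ∧ ∃ j, j / m = x.val - p ∧ j % p = v.val} with hA
      set B : Set (Fin (p + (ℓ + t))) :=
        {x | p ≤ x.val ∧ ¬ ∃ j, j / m = x.val - p ∧ j % p = v.val} with hB
      have hAB : A ∪ B = {x : Fin (p + (ℓ + t)) | p ≤ x.val} := by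
        ext x
        constructor
        · rintro (h | h) <;> exact h.1
        · intro h
          by_cases hj : ∃ j, j / m = x.val - p ∧ j % p = v.val
          · exact Or.inl ⟨h, hj⟩
          · exact Or.inr ⟨h, hj⟩
      have hcard : {x : Fin (p + (ℓ + t)) | p ≤ x.val}.ncard = ℓ + t := by
        have : {v : Fin (p + (ℓ + t)) | p ≤ v.val} =
            ((Finset.univ.filter (fun v : Fin (p + (ℓ + t)) => v.val < p))ᶜ : Set (Fin (p + (ℓ + t)))) := by
          ext; simp
        rw [this, Set.ncard_compl, Set.ncard_coe_finset, Fin.card_filter_val_lt]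
        simp
      have hAt : A.ncard ≤ t := by
        have hch : ∀ x : Fin (p + (ℓ + t)), ∃ i : ℕ, x ∈ A → i < t ∧ (v.val + p * i) / m = x.val - p := by
          intro x
          by_cases hx : x ∈ A
          · obtain ⟨hpx, j, hj1, hj2⟩ := hx
            refine ⟨j / p, fun _ => ⟨?_, ?_⟩⟩
            · rw [Nat.div_lt_iff_lt_mul hp0]
              have h1 : j < (x.val - p + 1) * m := by
                rw [← hj1, add_mul, one_mul]
                have := Nat.div_add_mod j m
                have h2 := Nat.mod_lt j hm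
                nlinarith
              have h3 : (x.val - p + 1) * m ≤ (ℓ + t) * m := by
                apply Nat.mul_le_mul_right
                have := x.isLt
                omega
              calc j < (x.val - p + 1) * m := h1
                _ ≤ (ℓ + t) * m := h3
                _ ≤ p * t := hpt
                _ = t * p := Nat.mul_comm _ _
            · rw [← hj2, Nat.mod_add_div]
              exact hj1
          · exact ⟨0, fun h => absurd h hx⟩
        choose f hf using hch
        have : A.ncard ≤ (Finset.range t : Set ℕ).ncard := by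
          apply Set.ncard_le_ncard_of_injOn f
          · intro x hx
            simpa using (hf x hx).1
          · intro x hx y hy hxy
            have h1 := (hf x hx).2
            have h2 := (hf y hy).2
            rw [hxy, h2] at h1
            have := hx.1
            have := hy.1
            ext
            omega
        rwa [Set.ncard_coe_finset, Finset.card_range] at this
      have := Set.ncard_union_le A B
      rw [hAB, hcard] at this
      omega
  · apply clique_bound
    · omega
    · omega
    · intro x hx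
      set A : Set (Fin (p + (ℓ + t))) :=
        {v | v.val < p ∧ ∃ j, j / m = x.val - p ∧ j % p = v.val} with hA
      have : (Finset.range m : Set ℕ).ncard ≤ A.ncard := by
        apply Set.ncard_le_ncard_of_injOn
          (fun i => (⟨((x.val - p) * m + i) % p,
            lt_of_lt_of_le (Nat.mod_lt _ hp0) (by omega)⟩ : Fin (p + (ℓ + t))))
        · intro i hi
          have hi' : i < m := by simpa using hi
          refine ⟨Nat.mod_lt _ hp0, (x.val - p) * m + i, ?_, rfl⟩
          rw [Nat.mul_comm, Nat.mul_add_div hm, Nat.div_eq_of_lt hi', add_zero]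
        · intro i hi j hj hij
          have hi' : i < m := by simpa using hi
          have hj' : j < m := by simpa using hj
          have h1 : ((x.val - p) * m + i) % p = ((x.val - p) * m + j) % p := by
            simpa using hij
          have h2 : i ≡ j [MOD p] := Nat.ModEq.add_left_cancel' _ h1
          have h3 : i % p = j % p := h2
          rwa [Nat.mod_eq_of_lt (by omega), Nat.mod_eq_of_lt (by omega)] at h3
      rwa [Set.ncard_coe_finset, Finset.card_range] at this

theorem minMaxCliqueNum_eq {n : ℕ} (G : SimpleGraph (Fin n)) :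
    minMaxCliqueNum G = indepDomNum Gᶜ := by
  unfold minMaxCliqueNum indepDomNum
  congr 1
  ext k
  constructor
  · rintro ⟨S, hS, hk⟩
    refine ⟨S, ⟨?_, ?_⟩, hk⟩
    · simpa using hS.prop
    · intro T hT hST
      exact hS.2 (by simpa using hT) hST
  · rintro ⟨S, hS, hk⟩
    refine ⟨S, ⟨?_, ?_⟩, hk⟩
    · simpa using hS.prop
    · intro T hT hST
      exact hS.2 (by simpa using hT) hST

/-- Sanity check: `f n` is the maximum of `i(G) * i(Gᶜ)` over the graphs on `n` vertices. -/
theorem f_isGreatest (n : ℕ) :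
    IsGreatest {k : ℕ | ∃ G : SimpleGraph (Fin n), indepDomNum G * indepDomNum Gᶜ = k} (f n) := by
  have hfin : {k : ℕ | ∃ G : SimpleGraph (Fin n), indepDomNum G * indepDomNum Gᶜ = k}.Finite :=
    Set.finite_range (fun G : SimpleGraph (Fin n) => indepDomNum G * indepDomNum Gᶜ)
  exact ⟨Nat.sSup_mem ⟨_, ⊥, rfl⟩ hfin.bddAbove, fun k hk => le_csSup hfin.bddAbove hk⟩

/-- For every `a ≥ 1` and `n = (2a+1)²`, `f(n) ≥ (a² + 1) ((a+1)² + 1)`. -/
theorem le_f (a : ℕ) (ha : 0 < a) :
    (a ^ 2 + 1) * ((a + 1) ^ 2 + 1) ≤ f ((2 * a + 1) ^ 2) := by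
  obtain ⟨G, hG1, hG2⟩ := exists_graph (a ^ 2) ((a + 1) ^ 2) (a * (a + 1))
    ((a + 1) ^ 2 + a * (a + 1)) (by positivity) (by positivity) (by positivity)
    (by nlinarith)
  have hn : (a + 1) ^ 2 + a * (a + 1) + (a ^ 2 + a * (a + 1)) = (2 * a + 1) ^ 2 := by ring
  rw [minMaxCliqueNum_eq] at hG2
  have key : ∀ N : ℕ, (a + 1) ^ 2 + a * (a + 1) + (a ^ 2 + a * (a + 1)) = N →
      (a ^ 2 + 1) * ((a + 1) ^ 2 + 1) ≤ f N := by
    rintro N rfl
    calc (a ^ 2 + 1) * ((a + 1) ^ 2 + 1) ≤ indepDomNum G * indepDomNum Gᶜ :=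
          Nat.mul_le_mul hG1 hG2
      _ ≤ f _ := (f_isGreatest _).2 ⟨G, rfl⟩
  exact key _ hn

/-- For every `a ≥ 1` the conjectured value is exceeded at the odd order `n = (2a+1)²`. -/
theorem exceeds (a : ℕ) (ha : 0 < a) :
    (((2 * a + 1) ^ 2 + 3) ^ 2) / 16 < f ((2 * a + 1) ^ 2) := by
  refine lt_of_lt_of_le ?_ (le_f a ha)
  rw [Nat.div_lt_iff_lt_mul (by norm_num)]
  ring_nf
  omega

/-- The conjectured formula for `f(n)` fails for infinitely many `n`. -/
theorem result : {n : ℕ | 4 ≤ n ∧
    f n ≠ if Even n then (n + 4) ^ 2 / 16 else (n + 3) ^ 2 / 16}.Infinite := by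
  apply Set.infinite_of_injective_forall_mem (f := fun a : ℕ => (2 * (a + 1) + 1) ^ 2)
  · intro a b hab
    have h : (2 * (a + 1) + 1) ^ 2 = (2 * (b + 1) + 1) ^ 2 := hab
    have := Nat.pow_left_injective (n := 2) (by norm_num) h
    omega
  · intro a
    have h4 : 4 ≤ (2 * (a + 1) + 1) ^ 2 := by
      have : 2 ^ 2 ≤ (2 * (a + 1) + 1) ^ 2 := Nat.pow_le_pow_left (by omega) 2
      simpa using this
    refine ⟨h4, ?_⟩
    have h1 := exceeds (a + 1) (by omega)
    have hodd : ¬ Even ((2 * (a + 1) + 1) ^ 2) := by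
      rw [Nat.not_even_iff_odd]
      exact Odd.pow ⟨a + 1, rfl⟩
    rw [if_neg hodd]
    exact h1.ne'

end Pool.Agent.Results.MP_530eb6_co.InfinitelyOften
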